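import Pool.Agent.Helper17.SN.Defs

/-!
# Künneth projectors modulo homological equivalence and the Bloch-Beilinson conjecture

For the rational Chow rings `S` (a `ChowTheory` of `Pool/Agent/Helper17/SN/Defs.lean`), `comp Γ Δ` is
the composition of correspondences and `S.act Γ x` the action. `IsKunneth L π` says that the `π j`
are Künneth projectors modulo homological equivalence and that the operators `L^(n-j)` have
algebraic inverses on the parts `j` of the motive, modulo homological equivalence.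
-/

set_option autoImplicit false

open CategoryTheory CategoryTheory.Limits

namespace Pool.Agent.Helper83.BB

open Pool.Agent.Helper17.SN

universe u v w

variable {𝒱 : Type u} [Category.{v} 𝒱] [HasBinaryProducts 𝒱] (S : ChowTheory.{u, v, w} 𝒱)

/-- two more properties of push-forward -/
structure PushMore : Prop where
  push_id : ∀ (X : 𝒱) (a : S.A X), S.push (𝟙 X) a = a
  /-- the image of a cycle has the same dimension: there are no cycles of negative codimension -/
  push_small : ∀ {X Y : 𝒱} (f : X ⟶ Y) (i : ℕ) (a : S.A X), i + S.dim Y < S.dim X →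
    a ∈ S.gr X i → S.push f a = 0

/-- the composition `p_(13 *) (p_12^* Γ · p_23^* Δ)` (first `Γ`, then `Δ`) of correspondences -/
noncomputable def comp {X Y Z : 𝒱} (Γ : S.A (X ⨯ Y)) (Δ : S.A (Y ⨯ Z)) : S.A (X ⨯ Z) :=
  S.push (prod.map (𝟙 X) (prod.snd : Y ⨯ Z ⟶ Z))
    (S.pull (prod.map (𝟙 X) (prod.fst : Y ⨯ Z ⟶ Y)) Γ *
      S.pull (prod.snd : X ⨯ (Y ⨯ Z) ⟶ Y ⨯ Z) Δ)

/-- the correspondence which acts as the multiplication by `a`: the cycle `a` on the diagonal -/
noncomputable def mulBy {X : 𝒱} (a : S.A X) : S.A (X ⨯ X) :=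
  S.push (prod.lift (𝟙 X) (𝟙 X)) a

omit [HasBinaryProducts 𝒱] in
/-- equality modulo homological equivalence -/
def HomEq {X : 𝒱} (a b : S.A X) : Prop := a - b ∈ S.hom X

/-- `π j` (`j` an integer; zero unless `0 ≤ j ≤ 2 dim X`) are the Künneth projectors modulo
homological equivalence, `L` maps the part `j` to the part `j + 2`, and `L^(dim X - j)` has an
inverse `θ` from the part `2 dim X - j` to the part `j`, modulo homological equivalence (the
standard conjectures `B` and `C` of Grothendieck for `(X, L)`). -/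
structure IsKunneth {X : 𝒱} (L : S.A X) (π : ℤ → S.A (X ⨯ X)) : Prop where
  π_gr : ∀ j, π j ∈ S.gr (X ⨯ X) (S.dim X)
  sum_π : HomEq S (∑ j ∈ Finset.Icc (0 : ℤ) (2 * (S.dim X : ℤ)), π j) (mulBy S 1)
  π_idem : ∀ j, HomEq S (comp S (π j) (π j)) (π j)
  π_orth : ∀ j k, j ≠ k → HomEq S (comp S (π k) (π j)) 0
  L_π : ∀ j, HomEq S (comp S (π j) (mulBy S L)) (comp S (mulBy S L) (π (j + 2)))
  lefschetz : ∀ j : ℕ, j ≤ S.dim X → ∃ θ ∈ S.gr (X ⨯ X) j,
    HomEq S (comp S (π j) (comp S (mulBy S (L ^ (S.dim X - j))) θ)) (π j) ∧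
    HomEq S (comp S θ (mulBy S (L ^ (S.dim X - j)))) (π (2 * (S.dim X : ℤ) - j)) ∧
    HomEq S (comp S θ (π j)) θ

/-- The conjecture of Bloch and Beilinson over number fields: a correspondence `Γ` from `X` to `Y`
which acts as zero on the cohomology of `X` in degree `2 i - 1` (that is, `Γ ∘ π_(2 i - 1)` is
homologous to zero) acts as zero on `Ch^i(X)^0`. -/
def BlochBeilinson : Prop :=
  ∀ (X Y : 𝒱) (L : S.A X) (π : ℤ → S.A (X ⨯ X)), S.Ample L → IsKunneth S L π →
    ∀ (i a : ℕ) (Γ : S.A (X ⨯ Y)), Γ ∈ S.gr (X ⨯ Y) a →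
      comp S (π (2 * (i : ℤ) - 1)) Γ ∈ S.hom (X ⨯ Y) → ∀ x ∈ S.homGr X i, S.act Γ x = 0

end Pool.Agent.Helper83.BB
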