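import Pool.Agent.Helper17.SN.Final
import Pool.Agent.Helper21.SN.Purity
import Pool.Agent.Helper83.BB.Defs

/-!
# Beilinson's conjectures and the conjecture of Bloch and Beilinson over number fields
-/

set_option autoImplicit false

open CategoryTheory CategoryTheory.Limits

namespace Pool.Agent.Helper83.BB

open Pool.Agent.Helper17.SN Pool.Agent.Helper21.Purity

universe u v w

variable {𝒱 : Type u} [Category.{v} 𝒱]

variable {S : ChowTheory.{u, v, w} 𝒱} [HasBinaryProducts 𝒱]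

/-! ### Linearity -/

/-- the action of a correspondence as a linear map -/
noncomputable def actL (S : ChowTheory.{u, v, w} 𝒱) {X Y : 𝒱} (Γ : S.A (X ⨯ Y)) :
    S.A X →ₗ[ℚ] S.A Y :=
  (S.push (prod.snd : X ⨯ Y ⟶ Y)).toRatLinearMap ∘ₗ (LinearMap.mulLeft ℚ Γ) ∘ₗ
    (S.pull (prod.fst : X ⨯ Y ⟶ X)).toLinearMap

theorem actL_apply {X Y : 𝒱} (Γ : S.A (X ⨯ Y)) (x : S.A X) : actL S Γ x = S.act Γ x := rfl

theorem act_sub {X Y : 𝒱} (Γ Γ' : S.A (X ⨯ Y)) (x : S.A X) :
    S.act (Γ - Γ') x = S.act Γ x - S.act Γ' x := by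
  simp only [ChowTheory.act, sub_mul, map_sub]

theorem act_sum {X Y : 𝒱} {ι : Type} (F : Finset ι) (Γ : ι → S.A (X ⨯ Y)) (x : S.A X) :
    S.act (∑ j ∈ F, Γ j) x = ∑ j ∈ F, S.act (Γ j) x := by
  simp only [ChowTheory.act, Finset.sum_mul, map_sum]

theorem act_zero {X Y : 𝒱} (Γ : S.A (X ⨯ Y)) : S.act Γ 0 = 0 := by
  simp only [ChowTheory.act, map_zero, mul_zero]

theorem comp_sub {X Y Z : 𝒱} (Γ : S.A (X ⨯ Y)) (Δ Δ' : S.A (Y ⨯ Z)) :
    comp S Γ (Δ - Δ') = comp S Γ Δ - comp S Γ Δ' := by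
  simp only [comp, map_sub, mul_sub]

theorem comp_sum {X Y Z : 𝒱} {ι : Type} (F : Finset ι) (Γ : S.A (X ⨯ Y))
    (Δ : ι → S.A (Y ⨯ Z)) : comp S Γ (∑ j ∈ F, Δ j) = ∑ j ∈ F, comp S Γ (Δ j) := by
  simp only [comp, map_sum, Finset.mul_sum]

/-! ### Correspondences -/

theorem act_comp (hS : S.Standard) {X Y Z : 𝒱} (Γ : S.A (X ⨯ Y)) (Δ : S.A (Y ⨯ Z)) (x : S.A X) :
    S.act (comp S Γ Δ) x = S.act Δ (S.act Γ x) := by
  have h1 : S.act (comp S Γ Δ) x =
      S.push ((prod.map (𝟙 X) (prod.snd : Y ⨯ Z ⟶ Z)) ≫ prod.snd)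
        (S.pull (prod.map (𝟙 X) (prod.snd : Y ⨯ Z ⟶ Z) ≫ prod.fst) x *
          (S.pull (prod.map (𝟙 X) (prod.fst : Y ⨯ Z ⟶ Y)) Γ *
            S.pull (prod.snd : X ⨯ (Y ⨯ Z) ⟶ Y ⨯ Z) Δ)) := by
    rw [ChowTheory.act, comp, mul_comm, ← hS.projection, ← hS.push_comp, ← hS.pull_comp]
  have h2 : S.act Δ (S.act Γ x) =
      S.push ((prod.snd : X ⨯ (Y ⨯ Z) ⟶ Y ⨯ Z) ≫ prod.snd)
        (S.pull (prod.snd : X ⨯ (Y ⨯ Z) ⟶ Y ⨯ Z) Δ *
          (S.pull (prod.map (𝟙 X) (prod.fst : Y ⨯ Z ⟶ Y)) Γ *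
            S.pull (prod.map (𝟙 X) (prod.fst : Y ⨯ Z ⟶ Y) ≫ prod.fst) x)) := by
    rw [ChowTheory.act, ChowTheory.act, hS.base_change, ← hS.projection, ← hS.push_comp,
      map_mul (S.pull (prod.map (𝟙 X) (prod.fst : Y ⨯ Z ⟶ Y))), ← hS.pull_comp]
  rw [h1, h2, prod.map_snd, prod.map_fst, prod.map_fst, Category.comp_id]
  congr 1
  ring

theorem act_mulBy (hS : S.Standard) (hM : PushMore S) {X : 𝒱} (a x : S.A X) :
    S.act (mulBy S a) x = a * x := by
  rw [ChowTheory.act, mulBy, mul_comm, ← hS.projection, ← hS.push_comp, ← hS.pull_comp,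
    prod.lift_fst, prod.lift_snd, hM.push_id, hS.pull_id, mul_comm]

theorem mulBy_gr (hS : S.Standard) {X : 𝒱} {a : S.A X} {i : ℕ} (ha : a ∈ S.gr X i) :
    mulBy S a ∈ S.gr (X ⨯ X) (i + S.dim X) := by
  refine hS.push_gr _ _ _ _ ?_ ha
  rw [hS.dim_prod]
  omega

theorem comp_gr (hS : S.Standard) {X Y Z : 𝒱} {Γ : S.A (X ⨯ Y)} {Δ : S.A (Y ⨯ Z)} {a b c : ℕ}
    (hΓ : Γ ∈ S.gr (X ⨯ Y) a) (hΔ : Δ ∈ S.gr (Y ⨯ Z) b) (h : a + b = c + S.dim Y) :
    comp S Γ Δ ∈ S.gr (X ⨯ Z) c := by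
  refine hS.push_gr _ _ _ _ ?_ (hS.mul_mem (hS.pull_gr _ _ _ hΓ) (hS.pull_gr _ _ _ hΔ))
  rw [hS.dim_prod, hS.dim_prod, hS.dim_prod]
  omega

theorem comp_hom_right (hS : S.Standard) {X Y Z : 𝒱} (Γ : S.A (X ⨯ Y)) {Δ : S.A (Y ⨯ Z)}
    (hΔ : Δ ∈ S.hom (Y ⨯ Z)) : comp S Γ Δ ∈ S.hom (X ⨯ Z) :=
  hS.push_hom _ _ (Ideal.mul_mem_left _ _ (hS.pull_hom _ _ hΔ))

theorem act_gr (hS : S.Standard) {X Y : 𝒱} {Γ : S.A (X ⨯ Y)} {x : S.A X} {a i c : ℕ}
    (hΓ : Γ ∈ S.gr (X ⨯ Y) a) (hx : x ∈ S.gr X i) (h : a + i = c + S.dim X) :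
    S.act Γ x ∈ S.gr Y c := by
  refine hS.push_gr _ _ _ _ ?_ (hS.mul_mem hΓ (hS.pull_gr _ _ _ hx))
  rw [hS.dim_prod]
  omega

theorem act_small (hS : S.Standard) (hM : PushMore S) {X Y : 𝒱} {Γ : S.A (X ⨯ Y)} {x : S.A X}
    {a i : ℕ} (hΓ : Γ ∈ S.gr (X ⨯ Y) a) (hx : x ∈ S.gr X i) (h : a + i < S.dim X) :
    S.act Γ x = 0 := by
  refine hM.push_small _ _ _ ?_ (hS.mul_mem hΓ (hS.pull_gr _ _ _ hx))
  rw [hS.dim_prod]
  omega

/-- correspondences homologous to zero act as zero -/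
theorem act_eq_zero (hS : S.Standard) (hP : S.ProductsVanish) {X Y : 𝒱} {Γ : S.A (X ⨯ Y)} {a : ℕ}
    (hΓ : Γ ∈ S.gr (X ⨯ Y) a) (h : Γ ∈ S.hom (X ⨯ Y)) {i : ℕ} {x : S.A X}
    (hx : x ∈ S.homGr X i) : S.act Γ x = 0 := by
  rw [ChowTheory.act, hP _ a i Γ ⟨hΓ, h⟩ _ ⟨hS.pull_gr _ _ _ hx.1, hS.pull_hom _ _ hx.2⟩, map_zero]

/-- equality modulo homological equivalence gives equality of the actions -/
theorem act_congr (hS : S.Standard) (hP : S.ProductsVanish) {X Y : 𝒱} {Γ Γ' : S.A (X ⨯ Y)} {a : ℕ}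
    (hΓ : Γ ∈ S.gr (X ⨯ Y) a) (hΓ' : Γ' ∈ S.gr (X ⨯ Y) a) (h : HomEq S Γ Γ') {i : ℕ}
    {x : S.A X} (hx : x ∈ S.homGr X i) : S.act Γ x = S.act Γ' x := by
  rw [← sub_eq_zero, ← act_sub]
  exact act_eq_zero hS hP (Submodule.sub_mem _ hΓ hΓ') h hx

/-! ### The Lefschetz-Künneth module -/

omit [HasBinaryProducts 𝒱] in
/-- the groups `Ch^i(X)^0` for all integers `i` -/
def hgr (S : ChowTheory.{u, v, w} 𝒱) (X : 𝒱) (i : ℤ) : Submodule ℚ (S.A X) :=
  if 0 ≤ i then S.gr X i.toNat ⊓ (S.hom X).restrictScalars ℚ else ⊥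

omit [HasBinaryProducts 𝒱] in
theorem mem_hgr {X : 𝒱} {i : ℤ} {x : S.A X} (hx : x ∈ hgr S X i) :
    x = 0 ∨ ∃ a : ℕ, i = a ∧ x ∈ S.homGr X a := by
  rw [hgr] at hx
  split_ifs at hx with h
  · exact Or.inr ⟨i.toNat, (Int.toNat_of_nonneg h).symm, hx.1, hx.2⟩
  · exact Or.inl ((Submodule.mem_bot ℚ).1 hx)

omit [HasBinaryProducts 𝒱] in
theorem mem_hgr_iff {X : 𝒱} {a : ℕ} {x : S.A X} : x ∈ hgr S X a ↔ x ∈ S.homGr X a := by
  rw [hgr, if_pos (Int.natCast_nonneg a)]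
  exact Iff.rfl

omit [HasBinaryProducts 𝒱] in
theorem mem_hgr_of {X : 𝒱} {a : ℕ} {x : S.A X} (hx : x ∈ S.homGr X a) : x ∈ hgr S X a :=
  mem_hgr_iff.2 hx

omit [HasBinaryProducts 𝒱] in
theorem pow_mulLeft_apply {X : 𝒱} (L : S.A X) (k : ℕ) (x : S.A X) :
    (LinearMap.mulLeft ℚ L ^ k) x = L ^ k * x := by
  rw [LinearMap.pow_mulLeft]
  rfl

section

variable (hS : S.Standard) (hM : PushMore S) (hP : S.ProductsVanish) {X : 𝒱} {L : S.A X}
  {π : ℤ → S.A (X ⨯ X)} (hL : S.Ample L) (hK : IsKunneth S L π)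

include hS hM hP hL hK

/-- if the products of cycles homologous to zero vanish, the projectors modulo homological
equivalence act as projectors on the cycles homologous to zero -/
theorem lefschetzKunneth : LefschetzKunneth (hgr S X) (LinearMap.mulLeft ℚ L)
    (fun j => actL S (π j)) (S.dim X) := by
  have hLg : L ∈ S.gr X 1 := hS.ample_gr hL
  have hL1 : mulBy S L ∈ S.gr (X ⨯ X) (1 + S.dim X) := mulBy_gr hS hLg
  have hLk : ∀ k : ℕ, mulBy S (L ^ k) ∈ S.gr (X ⨯ X) (k + S.dim X) := by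
    intro k
    refine mulBy_gr hS ?_
    have := ChowTheory.pow_mem hS hLg (hS.one_mem X) k
    rwa [mul_one, zero_add] at this
  -- the projectors on homogeneous elements
  have hπh : ∀ (j : ℤ) {a : ℕ} {x : S.A X}, x ∈ S.homGr X a → S.act (π j) x ∈ S.homGr X a :=
    fun j a x hx => ⟨act_gr hS (hK.π_gr j) hx.1 (by omega), ChowTheory.act_hom hS _ hx.2⟩
  have hππ : ∀ j k, comp S (π k) (π j) ∈ S.gr (X ⨯ X) (S.dim X) := fun j k =>
    comp_gr hS (hK.π_gr k) (hK.π_gr j) rfl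
  have hidem : ∀ (j : ℤ) {a : ℕ} {x : S.A X}, x ∈ S.homGr X a →
      S.act (π j) (S.act (π j) x) = S.act (π j) x := by
    intro j a x hx
    rw [← act_comp hS]
    exact act_congr hS hP (hππ j j) (hK.π_gr j) (hK.π_idem j) hx
  have horth : ∀ (j k : ℤ), j ≠ k → ∀ {a : ℕ} {x : S.A X}, x ∈ S.homGr X a →
      S.act (π j) (S.act (π k) x) = 0 := by
    intro j k hjk a x hx
    rw [← act_comp hS]
    have h := hK.π_orth j k hjk
    rw [HomEq, sub_zero] at h
    exact act_eq_zero hS hP (hππ j k) h hx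
  have hsum : ∀ {a : ℕ} {x : S.A X}, x ∈ S.homGr X a →
      ∑ j ∈ Finset.Icc (0 : ℤ) (2 * (S.dim X : ℤ)), S.act (π j) x = x := by
    intro a x hx
    rw [← act_sum, act_congr hS hP (Submodule.sum_mem _ fun j _ => hK.π_gr j) ?_ hK.sum_π hx,
      act_mulBy hS hM, one_mul]
    have := hLk 0
    rwa [pow_zero, zero_add] at this
  have hcomm : ∀ (j : ℤ) {a : ℕ} {x : S.A X}, x ∈ S.homGr X a →
      L * S.act (π j) x = S.act (π (j + 2)) (L * x) := by
    intro j a x hx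
    have h := act_congr hS hP (a := 1 + S.dim X)
      (comp_gr hS (hK.π_gr j) hL1 (c := 1 + S.dim X) (by omega))
      (comp_gr hS hL1 (hK.π_gr (j + 2)) (c := 1 + S.dim X) (by omega)) (hK.L_π j) hx
    rwa [act_comp hS, act_comp hS, act_mulBy hS hM, act_mulBy hS hM] at h
  have hmulmem : ∀ {a : ℕ} {x : S.A X}, x ∈ S.homGr X a → L * x ∈ S.homGr X (a + 1) := by
    intro a x hx
    refine ⟨?_, Ideal.mul_mem_left _ _ hx.2⟩
    have := hS.mul_mem hLg hx.1
    rwa [add_comm] at this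
  have hpowmem : ∀ (k : ℕ) {a : ℕ} {x : S.A X}, x ∈ S.homGr X a →
      L ^ k * x ∈ S.homGr X (a + k) := fun k a x hx =>
    ⟨ChowTheory.pow_mem hS hLg hx.1 k, Ideal.mul_mem_left _ _ hx.2⟩
  have hpowcomm : ∀ (k : ℕ) (j : ℤ) {a : ℕ} {x : S.A X}, x ∈ S.homGr X a →
      L ^ k * S.act (π j) x = S.act (π (j + 2 * k)) (L ^ k * x) := by
    intro k
    induction k with
    | zero => intro j a x hx; simp
    | succ k ih =>
      intro j a x hx
      rw [pow_succ', mul_assoc, ih j hx, hcomm _ (hpowmem k hx), ← mul_assoc]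
      congr 2
      push_cast
      ring
  -- outside of the range the projectors are zero
  have hout : ∀ (j : ℤ), j < 0 ∨ 2 * (S.dim X : ℤ) < j → ∀ {a : ℕ} {x : S.A X},
      x ∈ S.homGr X a → S.act (π j) x = 0 := by
    intro j hj a x hx
    conv_lhs => rw [← hsum hx]
    rw [← actL_apply, map_sum]
    refine Finset.sum_eq_zero fun k hk => ?_
    rw [actL_apply]
    refine horth j k ?_ hx
    rw [Finset.mem_Icc] at hk
    omega
  refine
    { L_mem := ?_
      π_mem := ?_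
      low := ?_
      high := ?_
      sum_π := ?_
      π_idem := ?_
      π_orth := ?_
      L_π := ?_
      hard := ?_ }
  · intro i x hx
    rcases mem_hgr hx with rfl | ⟨a, rfl, hx⟩
    · rw [map_zero]
      exact Submodule.zero_mem _
    · exact mem_hgr_of (a := a + 1) (hmulmem hx)
  · intro i j x hx
    rcases mem_hgr hx with rfl | ⟨a, rfl, hx⟩
    · rw [map_zero]
      exact Submodule.zero_mem _
    · exact mem_hgr_of (hπh j hx)
  · intro i hi x hx
    rcases mem_hgr hx with rfl | ⟨a, rfl, hx⟩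
    · rfl
    · have : a = 0 := by omega
      subst this
      exact hS.hom_zero hx.1 hx.2
  · intro i hi x hx
    rcases mem_hgr hx with rfl | ⟨a, rfl, hx⟩
    · rfl
    · exact hS.gr_large (by omega) hx.1
  · intro i x hx
    rcases mem_hgr hx with rfl | ⟨a, rfl, hx⟩
    · simp
    · exact hsum hx
  · intro i j x hx
    rcases mem_hgr hx with rfl | ⟨a, rfl, hx⟩
    · simp
    · exact hidem j hx
  · intro i j k hjk x hx
    rcases mem_hgr hx with rfl | ⟨a, rfl, hx⟩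
    · simp
    · exact horth j k hjk hx
  · intro i j x hx
    rcases mem_hgr hx with rfl | ⟨a, rfl, hx⟩
    · simp
    · exact hcomm j hx
  · intro i j k hk
    rcases lt_or_ge j 0 with hj | hj
    · -- both sides are zero
      have hz : ∀ (i j : ℤ), j < 0 ∨ 2 * (S.dim X : ℤ) < j →
          ∀ x ∈ part (hgr S X) (fun j => actL S (π j)) i j, x = 0 := by
        intro i j hj x hx
        rcases mem_hgr hx.1 with rfl | ⟨a, rfl, hx'⟩
        · rfl
        · rw [← hx.2]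
          exact hout j hj hx'
      refine ⟨?_, ?_, ?_⟩
      · intro x hx
        rw [hz i j (Or.inl hj) x hx]
        simp only [map_zero]
        exact ⟨Submodule.zero_mem _, map_zero _⟩
      · intro x hx y hy _
        rw [hz i j (Or.inl hj) x hx, hz i j (Or.inl hj) y hy]
      · intro y hy
        rw [hz _ _ (Or.inr (by omega)) y hy]
        exact ⟨0, ⟨Submodule.zero_mem _, map_zero _⟩, map_zero _⟩
    · obtain ⟨j, rfl⟩ := Int.eq_ofNat_of_zero_le hj
      have hjn : j ≤ S.dim X := by omega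
      have hkj : S.dim X - j = k := by omega
      obtain ⟨θ, hθ, h1, h2, h3⟩ := hK.lefschetz j hjn
      rw [hkj] at h1 h2
      -- the three identities on `Ch^0`
      have e1 : ∀ {a : ℕ} {x : S.A X}, x ∈ S.homGr X a →
          S.act θ (L ^ k * S.act (π j) x) = S.act (π j) x := by
        intro a x hx
        have hg : comp S (mulBy S (L ^ k)) θ ∈ S.gr (X ⨯ X) (S.dim X) :=
          comp_gr hS (hLk k) hθ (by omega)
        have h := act_congr hS hP (comp_gr hS (hK.π_gr j) hg rfl) (hK.π_gr j) h1 hx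
        rwa [act_comp hS, act_comp hS, act_mulBy hS hM] at h
      have e2 : ∀ {a : ℕ} {x : S.A X}, x ∈ S.homGr X a →
          L ^ k * S.act θ x = S.act (π (2 * (S.dim X : ℤ) - j)) x := by
        intro a x hx
        have h := act_congr hS hP (comp_gr hS hθ (hLk k) (c := S.dim X) (by omega))
          (hK.π_gr _) h2 hx
        rwa [act_comp hS, act_mulBy hS hM] at h
      have e3 : ∀ {a : ℕ} {x : S.A X}, x ∈ S.homGr X a →
          S.act (π j) (S.act θ x) = S.act θ x := by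
        intro a x hx
        have h := act_congr hS hP (comp_gr hS hθ (hK.π_gr j) rfl) hθ h3 hx
        rwa [act_comp hS] at h
      refine ⟨?_, ?_, ?_⟩
      · rintro x ⟨hx, hx2⟩
        rcases mem_hgr hx with rfl | ⟨a, rfl, hx'⟩
        · simp only [map_zero]
          exact ⟨Submodule.zero_mem _, map_zero _⟩
        · have hx2' : S.act (π j) x = x := hx2
          simp only [pow_mulLeft_apply]
          refine ⟨mem_hgr_of (a := a + k) (hpowmem k hx'), ?_⟩
          have h := hpowcomm k j hx'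
          rw [hx2', show (j : ℤ) + 2 * k = 2 * (S.dim X : ℤ) - j by omega] at h
          exact h.symm
      · rintro x ⟨hx, hx2⟩ y ⟨hy, hy2⟩ hxy
        have key : ∀ z ∈ hgr S X i, actL S (π j) z = z → S.act θ (L ^ k * z) = z := by
          intro z hz hz2
          rcases mem_hgr hz with rfl | ⟨a, rfl, hz'⟩
          · rw [mul_zero, act_zero]
          · have h := e1 hz'
            have hz2' : S.act (π j) z = z := hz2
            rwa [hz2'] at h
        simp only [pow_mulLeft_apply] at hxy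
        rw [← key x hx hx2, hxy, key y hy hy2]
      · rintro y ⟨hy, hy2⟩
        rcases mem_hgr hy with rfl | ⟨b, hb, hy'⟩
        · exact ⟨0, ⟨Submodule.zero_mem _, map_zero _⟩, map_zero _⟩
        · have hy2' : S.act (π (2 * (S.dim X : ℤ) - j)) y = y := hy2
          refine ⟨S.act θ y, ⟨?_, e3 hy'⟩, ?_⟩
          · rcases lt_or_ge i 0 with hi | hi
            · rw [act_small hS hM hθ hy'.1 (by omega)]
              exact Submodule.zero_mem _
            · obtain ⟨a, rfl⟩ := Int.eq_ofNat_of_zero_le hi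
              exact mem_hgr_of ⟨act_gr hS hθ hy'.1 (by omega), ChowTheory.act_hom hS _ hy'.2⟩
          · simp only [pow_mulLeft_apply]
            rw [e2 hy', hy2']

/-- if the products of cycles homologous to zero vanish, Q1 is purity -/
theorem lefschetz_iff : S.Lefschetz L ↔
    ∀ i : ℕ, ∀ x ∈ S.homGr X i, S.act (π (2 * (i : ℤ) - 1)) x = x := by
  have h := (lefschetzKunneth hS hM hP hL hK).lefschetz_iff
  have hset : ∀ a : ℕ, (hgr S X a : Set (S.A X)) = S.homGr X a := by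
    intro a
    ext x
    exact mem_hgr_iff
  constructor
  · intro hQ i x hx
    refine h.1 ?_ i x (mem_hgr_of hx)
    intro i h1 h2
    have h3 := hQ i h1 h2
    have e : (S.dim X : ℤ) + 1 - i = ((S.dim X + 1 - i : ℕ) : ℤ) := by omega
    rw [e, hset, hset]
    simpa only [pow_mulLeft_apply] using h3
  · intro hQ i h1 h2
    have h3 := h.2 (fun i x hx => by
      rcases mem_hgr hx with rfl | ⟨a, rfl, hx⟩
      · exact map_zero _
      · exact hQ a x hx) i h1 h2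
    have e : (S.dim X : ℤ) + 1 - i = ((S.dim X + 1 - i : ℕ) : ℤ) := by omega
    rw [e, hset, hset] at h3
    simpa only [pow_mulLeft_apply] using h3

/-- if the products of cycles homologous to zero vanish, Q1 gives the conjecture of Bloch and
Beilinson -/
theorem act_eq_zero_of_comp (hQ : S.Lefschetz L) {Y : 𝒱} {i a : ℕ} {Γ : S.A (X ⨯ Y)}
    (hΓ : Γ ∈ S.gr (X ⨯ Y) a) (h0 : comp S (π (2 * (i : ℤ) - 1)) Γ ∈ S.hom (X ⨯ Y)) {x : S.A X}
    (hx : x ∈ S.homGr X i) : S.act Γ x = 0 := by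
  have h1 := (lefschetz_iff hS hM hP hL hK).1 hQ i x hx
  rw [← h1, ← act_comp hS]
  exact act_eq_zero hS hP (comp_gr hS (hK.π_gr _) hΓ (c := a) (by omega)) h0 hx

end

section

variable (hS : S.Standard) (hM : PushMore S)
  (hB : ∀ (X : 𝒱) (L : S.A X), S.Ample L → ∃ π : ℤ → S.A (X ⨯ X), IsKunneth S L π)

include hS hM hB

/-- the conjecture of Bloch and Beilinson implies that products vanish -/
theorem products_of_blochBeilinson (hBB : BlochBeilinson S) : S.ProductsVanish := by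
  intro X i j x hx y hy
  obtain ⟨L, hL⟩ := hS.exists_ample X
  obtain ⟨π, hK⟩ := hB X L hL
  have h := hBB X X L π hL hK j _ (mulBy S x) (mulBy_gr hS hx.1)
    (comp_hom_right hS _ (hS.push_hom _ _ hx.2)) y hy
  rwa [act_mulBy hS hM] at h

/-- the conjecture of Bloch and Beilinson implies Q1 -/
theorem lefschetz_of_blochBeilinson (hBB : BlochBeilinson S) {X : 𝒱} {L : S.A X}
    (hL : S.Ample L) : S.Lefschetz L := by
  have hP := products_of_blochBeilinson hS hM hB hBB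
  obtain ⟨π, hK⟩ := hB X L hL
  rw [lefschetz_iff hS hM hP hL hK]
  intro i x hx
  by_cases hr : 2 * (i : ℤ) - 1 ∈ Finset.Icc (0 : ℤ) (2 * (S.dim X : ℤ))
  swap
  · -- there is nothing in this codimension
    have hx0 : x = 0 := by
      rw [Finset.mem_Icc] at hr
      rcases Nat.eq_zero_or_pos i with hi | hi
      · subst hi
        exact hS.hom_zero hx.1 hx.2
      · exact hS.gr_large (by omega) hx.1
    rw [hx0, act_zero]
  have h1 : mulBy S 1 ∈ S.gr (X ⨯ X) (S.dim X) := by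
    have := mulBy_gr hS (hS.one_mem X)
    rwa [zero_add] at this
  have h2 : comp S (π (2 * (i : ℤ) - 1)) (mulBy S 1 - π (2 * (i : ℤ) - 1)) ∈ S.hom (X ⨯ X) := by
    set j := 2 * (i : ℤ) - 1 with hj
    -- modulo homological equivalence the diagonal is the sum of the projectors
    have h3 : comp S (π j) (∑ k ∈ Finset.Icc (0 : ℤ) (2 * (S.dim X : ℤ)), π k - mulBy S 1) ∈
        S.hom (X ⨯ X) := comp_hom_right hS _ hK.sum_π
    have h4 : comp S (π j) (∑ k ∈ Finset.Icc (0 : ℤ) (2 * (S.dim X : ℤ)), π k) -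
        comp S (π j) (π j) ∈ S.hom (X ⨯ X) := by
      rw [comp_sum, ← Finset.add_sum_erase _ _ hr, add_sub_cancel_left]
      refine Ideal.sum_mem _ fun k hk => ?_
      have h5 := hK.π_orth k j (Finset.ne_of_mem_erase hk)
      rwa [HomEq, sub_zero] at h5
    rw [comp_sub] at h3 ⊢
    have h6 := Submodule.sub_mem _ h4 h3
    rwa [show comp S (π j) (∑ k ∈ Finset.Icc (0 : ℤ) (2 * (S.dim X : ℤ)), π k) -
      comp S (π j) (π j) - (comp S (π j) (∑ k ∈ Finset.Icc (0 : ℤ) (2 * (S.dim X : ℤ)), π k) -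
      comp S (π j) (mulBy S 1)) = comp S (π j) (mulBy S 1) - comp S (π j) (π j) by abel] at h6
  have h3 := hBB X X L π hL hK i _ (mulBy S 1 - π (2 * (i : ℤ) - 1))
    (Submodule.sub_mem _ h1 (hK.π_gr _)) h2 x hx
  rw [act_sub, act_mulBy hS hM, one_mul, sub_eq_zero] at h3
  exact h3.symm

/-- The conjectures of Beilinson and of Bloch-Beilinson, with nilpotence. -/
theorem nilpotent_iff : ((∀ X : 𝒱, S.NilpotentAction X) ∧
      ∀ (X : 𝒱) (L : S.A X), S.Ample L → S.Lefschetz L ∧ S.Index L) ↔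
    (BlochBeilinson S ∧ ∀ (X : 𝒱) (L : S.A X), S.Ample L → S.Index L) := by
  constructor
  · rintro ⟨hN, hQ⟩
    have hP : S.ProductsVanish := ChowTheory.products_of_nilpotent hS hQ hN
    exact ⟨fun X Y L π hL hK i a Γ hΓ h0 x hx =>
      act_eq_zero_of_comp hS hM hP hL hK (hQ X L hL).1 hΓ h0 hx, fun X L hL => (hQ X L hL).2⟩
  · rintro ⟨hBB, hI⟩
    have hP := products_of_blochBeilinson hS hM hB hBB
    exact ⟨fun X => ChowTheory.nilpotent_of_products hS hP X,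
      fun X L hL => ⟨lefschetz_of_blochBeilinson hS hM hB hBB hL, hI X L hL⟩⟩

/-- The conjectures of Beilinson and of Bloch-Beilinson, with Voevodsky's conjecture. -/
theorem voevodsky_iff : (S.Voevodsky ∧
      ∀ (X : 𝒱) (L : S.A X), S.Ample L → S.Lefschetz L ∧ S.Index L) ↔
    (BlochBeilinson S ∧ ∀ (X : 𝒱) (L : S.A X), S.Ample L → S.Index L) := by
  constructor
  · rintro ⟨hV, hQ⟩
    have hP : S.ProductsVanish := ChowTheory.products_of_voevodsky hS hQ hV
    exact ⟨fun X Y L π hL hK i a Γ hΓ h0 x hx =>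
      act_eq_zero_of_comp hS hM hP hL hK (hQ X L hL).1 hΓ h0 hx, fun X L hL => (hQ X L hL).2⟩
  · rintro ⟨hBB, hI⟩
    have hP := products_of_blochBeilinson hS hM hB hBB
    exact ⟨ChowTheory.voevodsky_of_products hS hP,
      fun X L hL => ⟨lefschetz_of_blochBeilinson hS hM hB hBB hL, hI X L hL⟩⟩

end

end Pool.Agent.Helper83.BB
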